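import Mathlib

set_option autoImplicit false

namespace Pool.Agent.Results.MP_a721b7_an.Characterization

universe u

variable {X : Type u}

/-- One forcing step between ordered pairs: from `(a, b)` to `(c, b)` when some `R(x)` contains
`a` and `c` but not `b`, and from `(a, b)` to `(a, c)` when some `R(x)` contains `b` and `c` but
not `a`. -/
def Step (R : X → X → Prop) (p q : X × X) : Prop :=
  (p.2 = q.2 ∧ ∃ x, R x p.1 ∧ R x q.1 ∧ ¬ R x p.2) ∨
  (p.1 = q.1 ∧ ∃ x, R x p.2 ∧ R x q.2 ∧ ¬ R x p.1)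

/-- Forbidden finite configurations: no finite chain of forcing steps leads from a pair `(a, b)`
to the reversed pair `(b, a)`. -/
def NoReversal (R : X → X → Prop) : Prop :=
  ∀ a b : X, ¬ Relation.TransGen (Step R) (a, b) (b, a)

/-- Countability condition: there is a countable `D ⊆ X` such that whenever `y ∈ R(x)` there are
`d, e ∈ D` with `y ∈ R(d) ∩ R(e) ⊆ R(x)`. -/
def CountablyBased (R : X → X → Prop) : Prop :=
  ∃ D : Set X, D.Countable ∧ ∀ x y, R x y →
    ∃ d ∈ D, ∃ e ∈ D, R d y ∧ R e y ∧ ∀ z, R d z → R e z → R x z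

lemma step_symm {R : X → X → Prop} {p q : X × X} (h : Step R p q) : Step R q p := by
  rcases h with ⟨e, x, h1, h2, h3⟩ | ⟨e, x, h1, h2, h3⟩
  · exact Or.inl ⟨e.symm, x, h2, h1, e ▸ h3⟩
  · exact Or.inr ⟨e.symm, x, h2, h1, e ▸ h3⟩

lemma step_swap {R : X → X → Prop} {p q : X × X} (h : Step R p q) : Step R p.swap q.swap := by
  rcases h with h | h
  · exact Or.inr h
  · exact Or.inl h

lemma rtg_symm {R : X → X → Prop} {p q : X × X} (h : Relation.ReflTransGen (Step R) p q) :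
    Relation.ReflTransGen (Step R) q p := by
  induction h with
  | refl => rfl
  | tail _ h ih => exact Relation.ReflTransGen.head (step_symm h) ih

lemma rtg_swap {R : X → X → Prop} {p q : X × X} (h : Relation.ReflTransGen (Step R) p q) :
    Relation.ReflTransGen (Step R) p.swap q.swap := by
  induction h with
  | refl => rfl
  | tail _ h ih => exact ih.tail (step_swap h)

def Good (R : X → X → Prop) (P : Set (X × X)) : Prop :=
  (∀ p ∈ P, ∀ q, Step R p q → q ∈ P) ∧ (∀ a b c, (a, b) ∈ P → (b, c) ∈ P → (a, c) ∈ P) ∧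
    ∀ a, (a, a) ∉ P

lemma closed_rtg {R : X → X → Prop} {P : Set (X × X)} (hP : ∀ p ∈ P, ∀ q, Step R p q → q ∈ P)
    {p q : X × X} (h : Relation.ReflTransGen (Step R) p q) (hp : p ∈ P) : q ∈ P := by
  induction h with
  | refl => exact hp
  | tail _ h ih => exact hP _ ih _ h

lemma triangle {R : X → X → Prop} {A C : Set (X × X)} (hA : ∀ p ∈ A, ∀ q, Step R p q → q ∈ A)
    (hC : ∀ p ∈ C, ∀ q, Step R p q → q ∈ C) (hAC : ∀ a b, (a, b) ∈ A → (b, a) ∉ C)
    {x : X} {p q : X × X} (h : Relation.ReflTransGen (Step R) p q) (hp : p ∈ A)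
    (h1 : (x, p.1) ∈ C) (h2 : (x, p.2) ∉ A) : (x, q.1) ∈ C ∧ (x, q.2) ∉ A ∧ x ≠ q.2 := by
  induction h with
  | refl => exact ⟨h1, h2, fun e => hAC p.1 p.2 hp (e ▸ h1)⟩
  | @tail r s hr h ih =>
    have hrA : r ∈ A := closed_rtg hA hr hp
    obtain ⟨i1, i2, i3⟩ := ih
    rcases h with ⟨e, w, a1, a2, a3⟩ | ⟨e, w, a1, a2, a3⟩
    · have hx : ¬ R w x := fun hx => i2 (hA r hrA (x, r.2) (Or.inl ⟨rfl, w, a1, hx, a3⟩))
      exact ⟨hC _ i1 (x, s.1) (Or.inr ⟨rfl, w, a1, a2, hx⟩), e ▸ i2, e ▸ i3⟩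
    · have hx : ¬ R w x := fun hx =>
        hAC r.1 x (hA r hrA (r.1, x) (Or.inr ⟨rfl, w, a1, hx, a3⟩)) i1
      refine ⟨e ▸ i1, fun hs => i2 (hA _ hs (x, r.2) (Or.inr ⟨rfl, w, a2, a1, hx⟩)), ?_⟩
      rintro rfl
      exact hx a2

lemma exists_order {R : X → X → Prop} (hR : NoReversal R) :
    ∃ P : Set (X × X), Good R P ∧ ∀ a b, a ≠ b → (a, b) ∈ P ∨ (b, a) ∈ P := by
  obtain ⟨P, hP⟩ := zorn_subset {P | Good R P} (by
    intro c hc hch
    refine ⟨⋃₀ c, ⟨?_, ?_, ?_⟩, fun s hs => Set.subset_sUnion_of_mem hs⟩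
    · rintro p ⟨s, hs, hp⟩ q hq
      exact ⟨s, hs, (hc hs).1 p hp q hq⟩
    · rintro a b d ⟨s, hs, h1⟩ ⟨t, ht, h2⟩
      rcases hch.total hs ht with h | h
      · exact ⟨t, ht, (hc ht).2.1 _ _ _ (h h1) h2⟩
      · exact ⟨s, hs, (hc hs).2.1 _ _ _ h1 (h h2)⟩
    · rintro a ⟨s, hs, h⟩
      exact (hc hs).2.2 a h)
  obtain ⟨hP1, hP2, hP3⟩ := hP.prop
  refine ⟨P, hP.prop, fun a b hab => ?_⟩
  by_contra hn
  push Not at hn
  let A : Set (X × X) := {q | Relation.ReflTransGen (Step R) (a, b) q}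
  have hA : ∀ p ∈ A, ∀ q, Step R p q → q ∈ A := fun p hp q h => Relation.ReflTransGen.tail hp h
  have hcon : ∀ p ∈ A, ∀ q ∈ A, Relation.ReflTransGen (Step R) p q := fun p hp q hq =>
    (rtg_symm hp).trans hq
  have hAA : ∀ u v, (u, v) ∈ A → (v, u) ∉ A := by
    intro u v h1 h2
    have h3 : Relation.ReflTransGen (Step R) (a, b) (b, a) :=
      Relation.ReflTransGen.trans h2 (rtg_symm (rtg_swap h1))
    rcases Relation.reflTransGen_iff_eq_or_transGen.1 h3 with h | h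
    · exact hab (congrArg Prod.snd h)
    · exact hR a b h
  have hAP : ∀ u v, (u, v) ∈ A → (v, u) ∉ P := fun u v h1 h2 =>
    hn.2 (closed_rtg hP1 (rtg_symm (rtg_swap h1)) h2)
  have hAt : ∀ x y z, (x, y) ∈ A → (y, z) ∈ A → (x, z) ∈ A := by
    intro x y z h1 h2
    by_contra h3
    have := (triangle hA hA hAA (hcon _ h2 _ h1) h2 h1 h3).1
    exact hAA x x this this
  have hAPA : ∀ u x y z, (u, x) ∈ A → (x, y) ∈ P → (y, z) ∈ A → (u, z) ∈ A := by
    intro u x y z h1 h2 h3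
    refine hAt _ _ _ h1 ?_
    by_contra h4
    exact (triangle hA hP1 hAP (hcon _ h3 _ h1) h3 h2 h4).2.2 rfl
  let r : X → X → Prop := fun x y => (x, y) ∈ P ∨ (x, y) ∈ A
  have hr : ∀ x y, r x y → ∀ q, Step R (x, y) q → r q.1 q.2 := by
    rintro x y (h | h) q hq
    · exact Or.inl (hP1 _ h q hq)
    · exact Or.inr (hA _ h q hq)
  have hform : ∀ x y, Relation.TransGen r x y → (x, y) ∈ P ∨
      ∃ u v, (x = u ∨ (x, u) ∈ P) ∧ (u, v) ∈ A ∧ (v = y ∨ (v, y) ∈ P) := by
    intro x y h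
    induction h with
    | single h =>
      rcases h with h | h
      · exact Or.inl h
      · exact Or.inr ⟨_, _, Or.inl rfl, h, Or.inl rfl⟩
    | tail _ h ih =>
      rcases ih with ih | ⟨u, v, h1, h2, h3⟩
      · rcases h with h | h
        · exact Or.inl (hP2 _ _ _ ih h)
        · exact Or.inr ⟨_, _, Or.inr ih, h, Or.inl rfl⟩
      · rcases h with h | h
        · rcases h3 with rfl | h3
          · exact Or.inr ⟨u, _, h1, h2, Or.inr h⟩
          · exact Or.inr ⟨u, v, h1, h2, Or.inr (hP2 _ _ _ h3 h)⟩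
        · rcases h3 with rfl | h3
          · exact Or.inr ⟨u, _, h1, hAt _ _ _ h2 h, Or.inl rfl⟩
          · exact Or.inr ⟨u, _, h1, hAPA _ _ _ _ h2 h3 h, Or.inl rfl⟩
  have hQ : Good R {p | Relation.TransGen r p.1 p.2} := by
    refine ⟨?_, fun x y z h1 h2 => Relation.TransGen.trans h1 h2, fun x hx => ?_⟩
    · rintro ⟨x, z⟩ hp
      change Relation.TransGen r x z at hp
      induction hp with
      | single h => exact fun q hq => Relation.TransGen.single (hr _ _ h q hq)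
      | @tail y z _ h ih =>
        rintro ⟨x', z'⟩ (⟨e, w, a1, a2, a3⟩ | ⟨e, w, a1, a2, a3⟩)
        · obtain rfl : z = z' := e
          by_cases hy : R w y
          · exact Relation.TransGen.single (hr _ _ h (x', z) (Or.inl ⟨rfl, w, hy, a2, a3⟩))
          · exact Relation.TransGen.tail (ih (x', y) (Or.inl ⟨rfl, w, a1, a2, hy⟩)) h
        · obtain rfl : x = x' := e
          by_cases hy : R w y
          · exact ih (x, z') (Or.inr ⟨rfl, w, hy, a2, a3⟩)
          · rename_i hxy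
            exact Relation.TransGen.tail hxy (hr _ _ h (y, z') (Or.inr ⟨rfl, w, a1, a2, hy⟩))
    · rcases hform x x hx with h | ⟨u, v, h1, h2, h3⟩
      · exact hP3 x h
      · rcases h1 with rfl | h1 <;> rcases h3 with rfl | h3
        · exact hAA _ _ h2 h2
        · exact hAP _ _ h2 h3
        · exact hAP _ _ h2 h1
        · exact hAP _ _ h2 (hP2 _ _ _ h3 h1)
  have hsub : P ⊆ {p | Relation.TransGen r p.1 p.2} := fun p hp =>
    Relation.TransGen.single (Or.inl hp)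
  exact hn.1 (hP.le_of_ge hQ hsub
    (Relation.TransGen.single (Or.inr Relation.ReflTransGen.refl) : Relation.TransGen r a b))

lemma exists_seq (φ : X → ℝ) (T : Set X) :
    ∃ D : Set X, D.Countable ∧ D ⊆ T ∧ ∀ x ∈ T, ∃ d ∈ D, φ x ≤ φ d := by
  by_cases h : ∃ d ∈ T, ∀ x ∈ T, φ x ≤ φ d
  · obtain ⟨d, hd, h⟩ := h
    exact ⟨{d}, Set.countable_singleton d, by simpa using hd, fun x hx => ⟨d, rfl, h x hx⟩⟩
  · push Not at h
    have : ∀ q : ℚ, ∃ s : Set X, s.Countable ∧ s ⊆ T ∧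
        ((∃ x ∈ T, (q : ℝ) < φ x) → ∃ d ∈ s, (q : ℝ) < φ d) := by
      intro q
      by_cases hq : ∃ x ∈ T, (q : ℝ) < φ x
      · obtain ⟨x, hx, hq⟩ := hq
        exact ⟨{x}, Set.countable_singleton x, by simpa using hx, fun _ => ⟨x, rfl, hq⟩⟩
      · exact ⟨∅, Set.countable_empty, Set.empty_subset _, fun h => absurd h hq⟩
    choose s hs1 hs2 hs3 using this
    refine ⟨⋃ q, s q, Set.countable_iUnion hs1, Set.iUnion_subset hs2, fun x hx => ?_⟩
    obtain ⟨y, hy, hlt⟩ := h x hx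
    obtain ⟨q, h1, h2⟩ := exists_rat_btwn hlt
    obtain ⟨d, hd, h3⟩ := hs3 q ⟨y, hy, h2⟩
    exact ⟨d, Set.mem_iUnion.2 ⟨q, hd⟩, by linarith⟩

lemma necessary {R : X → X → Prop} (f g h : X → ℝ)
    (H : ∀ x y, R x y ↔ f x < g y ∧ g y < h x) : NoReversal R ∧ CountablyBased R := by
  constructor
  · have key : ∀ p q, Step R p q → (g p.1 < g p.2 ∧ g q.1 < g q.2) ∨
        (g p.2 < g p.1 ∧ g q.2 < g q.1) := by
      rintro p q (⟨e, x, h1, h2, h3⟩ | ⟨e, x, h1, h2, h3⟩)
      · rw [H] at h1 h2 h3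
        rw [← e]
        rcases not_and_or.1 h3 with h | h <;> push Not at h
        · right; constructor <;> linarith [h1.1, h2.1]
        · left; constructor <;> linarith [h1.2, h2.2]
      · rw [H] at h1 h2 h3
        rw [← e]
        rcases not_and_or.1 h3 with h | h <;> push Not at h
        · left; constructor <;> linarith [h1.1, h2.1]
        · right; constructor <;> linarith [h1.2, h2.2]
    have key2 : ∀ p q, Relation.TransGen (Step R) p q → (g p.1 < g p.2 ∧ g q.1 < g q.2) ∨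
        (g p.2 < g p.1 ∧ g q.2 < g q.1) := by
      intro p q hpq
      induction hpq with
      | single h => exact key _ _ h
      | tail _ h ih =>
        rcases ih with ⟨a, b⟩ | ⟨a, b⟩ <;> rcases key _ _ h with ⟨c, d⟩ | ⟨c, d⟩
        · exact Or.inl ⟨a, d⟩
        · linarith
        · linarith
        · exact Or.inr ⟨a, d⟩
    intro a b hab
    rcases key2 _ _ hab with ⟨c, d⟩ | ⟨c, d⟩ <;> exact lt_asymm c d
  · choose D1 a1 a2 a3 using fun pq : ℚ × ℚ =>
      exists_seq f {x | f x < pq.1 ∧ (pq.2 : ℝ) < h x}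
    choose D2 b1 b2 b3 using fun pq : ℚ × ℚ =>
      exists_seq (fun x => -h x) {x | f x < pq.1 ∧ (pq.2 : ℝ) < h x}
    refine ⟨⋃ pq, (D1 pq ∪ D2 pq), Set.countable_iUnion fun pq => (a1 pq).union (b1 pq),
      fun x y hxy => ?_⟩
    rw [H] at hxy
    obtain ⟨p, p1, p2⟩ := exists_rat_btwn hxy.1
    obtain ⟨q, q1, q2⟩ := exists_rat_btwn hxy.2
    obtain ⟨d, hd, hd'⟩ := a3 (p, q) x ⟨p1, q2⟩
    obtain ⟨e, he, he'⟩ := b3 (p, q) x ⟨p1, q2⟩
    have d1 := a2 _ hd
    have e1 := b2 _ he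
    refine ⟨d, Set.mem_iUnion.2 ⟨_, Or.inl hd⟩, e, Set.mem_iUnion.2 ⟨_, Or.inr he⟩,
      (H _ _).2 ⟨d1.1.trans p2, q1.trans d1.2⟩, (H _ _).2 ⟨e1.1.trans p2, q1.trans e1.2⟩,
      fun z h1 h2 => ?_⟩
    rw [H] at h1 h2 ⊢
    constructor <;> linarith [h1.1, h2.2]

open Classical in
lemma sufficient {R : X → X → Prop} (h1 : NoReversal R) (h2 : CountablyBased R) :
    ∃ f g h : X → ℝ, ∀ x y, R x y ↔ f x < g y ∧ g y < h x := by
  obtain ⟨P, ⟨hP1, hP2, hP3⟩, hP4⟩ := exists_order h1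
  obtain ⟨D, hD, hb⟩ := h2
  have hconv : ∀ x a b c, (a, b) ∈ P → (b, c) ∈ P → R x a → R x c → R x b := by
    intro x a b c h1 h2 h3 h4
    by_contra h5
    exact hP3 b (hP2 _ _ _ h2 (hP1 _ h1 (c, b) (Or.inl ⟨rfl, x, h3, h4, h5⟩)))
  obtain ⟨B, hB⟩ : ∃ B : ℕ → Set X, ∀ x y, R x y → ∃ n, y ∈ B n ∧ ∀ z ∈ B n, R x z := by
    obtain ⟨e, he⟩ := ((hD.prod hD).image fun p : X × X => {z | R p.1 z ∧ R p.2 z}).insert
      ∅ |>.exists_eq_range (Set.insert_nonempty _ _)
    refine ⟨e, fun x y hxy => ?_⟩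
    obtain ⟨d, hd, d', hd', a1, a2, a3⟩ := hb x y hxy
    have : {z | R d z ∧ R d' z} ∈ Set.range e := by
      rw [← he]
      exact Or.inr ⟨(d, d'), ⟨hd, hd'⟩, rfl⟩
    obtain ⟨n, hn⟩ := this
    exact ⟨n, by rw [hn]; exact ⟨a1, a2⟩, fun z hz => by rw [hn] at hz; exact a3 z hz.1 hz.2⟩
  let s : ℕ → X → ℝ := fun n y => (if ∀ b ∈ B n, (b, y) ∈ P then 1 else 0) +
    (if ∀ b ∈ B n, (y, b) ∈ P then 0 else 1)
  have hs0 : ∀ n y, 0 ≤ s n y := fun n y => by simp only [s]; split_ifs <;> norm_num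
  have hs2 : ∀ n y, s n y ≤ 2 := fun n y => by simp only [s]; split_ifs <;> norm_num
  have hmono : ∀ n y z, (y, z) ∈ P → s n y ≤ s n z := by
    intro n y z hyz
    refine add_le_add ?_ ?_
    · by_cases h : ∀ b ∈ B n, (b, y) ∈ P
      · rw [if_pos h, if_pos fun b hb => hP2 _ _ _ (h b hb) hyz]
      · rw [if_neg h]; split_ifs <;> norm_num
    · by_cases h : ∀ b ∈ B n, (z, b) ∈ P
      · rw [if_pos h, if_pos fun b hb => hP2 _ _ _ hyz (h b hb)]
      · rw [if_neg h]; split_ifs <;> norm_num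
  have hsum : ∀ y, Summable fun n => (1 / 2 : ℝ) ^ n * s n y := fun y =>
    Summable.of_nonneg_of_le (fun n => mul_nonneg (by positivity) (hs0 n y))
      (fun n => mul_le_mul_of_nonneg_left (hs2 n y) (by positivity))
      (summable_geometric_two.mul_right 2)
  let g : X → ℝ := fun y => ∑' n, (1 / 2 : ℝ) ^ n * s n y
  have hg0 : ∀ y, 0 ≤ g y := fun y => tsum_nonneg fun n => mul_nonneg (by positivity) (hs0 n y)
  have hg4 : ∀ y, g y ≤ 4 := fun y => by
    have := (hsum y).tsum_le_tsum (fun n => mul_le_mul_of_nonneg_left (hs2 n y) (by positivity))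
      (summable_geometric_two.mul_right 2)
    rw [tsum_mul_right, tsum_geometric_two] at this
    linarith
  have hgap : ∀ n y z, (y, z) ∈ P → s n y + 1 ≤ s n z → g y + (1 / 2) ^ n ≤ g z := by
    intro n y z hyz hn
    have h1 := ((hsum z).sub (hsum y)).le_tsum n fun m _ => by
      have := mul_le_mul_of_nonneg_left (hmono m y z hyz) (by positivity : 0 ≤ (1 / 2 : ℝ) ^ m)
      linarith
    rw [(hsum z).tsum_sub (hsum y)] at h1
    have h2 := mul_le_mul_of_nonneg_left hn (by positivity : 0 ≤ (1 / 2 : ℝ) ^ n)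
    simp only [g]
    linarith
  let U : X → Set ℝ := fun x => insert 5 (g '' {z | ¬ R x z ∧ ∀ y, R x y → (y, z) ∈ P})
  let L : X → Set ℝ := fun x => insert (-1) (g '' {z | ¬ R x z ∧ ∀ y, R x y → (z, y) ∈ P})
  have hU : ∀ x, BddBelow (U x) := fun x => ⟨0, by
    rintro _ (rfl | ⟨z, -, rfl⟩)
    · norm_num
    · exact hg0 z⟩
  have hL : ∀ x, BddAbove (L x) := fun x => ⟨4, by
    rintro _ (rfl | ⟨z, -, rfl⟩)
    · norm_num
    · exact hg4 z⟩
  refine ⟨fun x => sSup (L x), g, fun x => sInf (U x), fun x y => ⟨fun hxy => ?_, fun hxy => ?_⟩⟩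
  · obtain ⟨n, hn1, hn2⟩ := hB x y hxy
    have hp : (0 : ℝ) < (1 / 2) ^ n := by positivity
    have hp1 : ((1 : ℝ) / 2) ^ n ≤ 1 := pow_le_one₀ (by norm_num) (by norm_num)
    have hy : s n y = 1 := by
      simp only [s]
      rw [if_neg fun h => hP3 y (h y hn1), if_neg fun h => hP3 y (h y hn1)]
      norm_num
    constructor
    · refine lt_of_le_of_lt (csSup_le (Set.insert_nonempty _ _) ?_) (sub_lt_self (g y) hp)
      rintro _ (rfl | ⟨z, hz, rfl⟩)
      · linarith [hg0 y]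
      · have := hgap n z y (hz.2 y hxy) (by
          rw [hy]
          simp only [s]
          rw [if_neg fun h => hP3 y (hP2 _ _ _ (h y hn1) (hz.2 y hxy)),
            if_pos fun b hb => hz.2 b (hn2 b hb)]
          norm_num)
        linarith
    · refine lt_of_lt_of_le (lt_add_of_pos_right (g y) hp) (le_csInf (Set.insert_nonempty _ _) ?_)
      rintro _ (rfl | ⟨z, hz, rfl⟩)
      · linarith [hg4 y]
      · exact hgap n y z (hz.2 y hxy) (by
          rw [hy]
          simp only [s]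
          rw [if_pos fun b hb => hz.2 b (hn2 b hb),
            if_neg fun h => hP3 y (hP2 _ _ _ (hz.2 y hxy) (h y hn1))])
  · by_contra hn
    by_cases hup : ∀ w, R x w → (w, y) ∈ P
    · exact absurd hxy.2 (not_lt.2 (csInf_le (hU x) (Or.inr ⟨y, ⟨hn, hup⟩, rfl⟩)))
    · push Not at hup
      obtain ⟨w, hw, hwy⟩ := hup
      have hyw : (y, w) ∈ P := (hP4 y w fun e => hn (e ▸ hw)).resolve_right hwy
      refine absurd hxy.1 (not_lt.2 (le_csSup (hL x) (Or.inr ⟨y, ⟨hn, fun v hv => ?_⟩, rfl⟩)))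
      exact (hP4 y v fun e => hn (e ▸ hv)).resolve_right fun h => hn (hconv x v y w h hyw hv hw)

/-- A binary relation `R` on an arbitrary set is three-function representable if and only if no
finite chain of forcing steps reverses a pair and the sets `R(x)` are countably based. -/
theorem result (X : Type u) (R : X → X → Prop) :
    (∃ f g h : X → ℝ, ∀ x y, R x y ↔ f x < g y ∧ g y < h x) ↔
      NoReversal R ∧ CountablyBased R :=
  ⟨fun ⟨f, g, h, H⟩ => necessary f g h H, fun ⟨h1, h2⟩ => sufficient h1 h2⟩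

end Pool.Agent.Results.MP_a721b7_an.Characterization
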